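import Pool.Agent.U41.OD.Stm0

/-!
# Project OD (helper41), package LM, first part: arithmetic in the local ring
-/

set_option autoImplicit false
set_option linter.unusedSectionVars false

namespace Pool.Agent.U41.OD

open MvPolynomial

/-- Dividing an element of `𝔭 ^ k` by `π ^ k`. -/
theorem exists_div_pow {O : Type} [CommRing O] [IsDedekindDomain O] (𝔭 : Ideal O) [𝔭.IsPrime]
    (π : O) (h1 : π ∈ 𝔭) (h2 : π ∉ 𝔭 ^ 2) (k : ℕ) (c : O) (hc : c ∈ 𝔭 ^ k) :
    ∃ s : O, s ∉ 𝔭 ∧ ∃ d : O, s * c = π ^ k * d ∧ (c ∉ 𝔭 ^ (k + 1) → d ∉ 𝔭) := by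
  have hdvd : 𝔭 ∣ Ideal.span {π} := by
    rw [Ideal.dvd_iff_le, Ideal.span_singleton_le_iff_mem]
    exact h1
  obtain ⟨J, hJ⟩ := hdvd
  have hJ' : ¬ J ≤ 𝔭 := by
    intro h
    apply h2
    have h3 : π ∈ 𝔭 * J := by
      rw [← hJ]
      exact Ideal.mem_span_singleton_self π
    rw [pow_two]
    exact Ideal.mul_mono_right h h3
  obtain ⟨s, hsJ, hs⟩ := Set.not_subset.1 hJ'
  have hs' : s ^ k ∉ 𝔭 := fun h => hs (Ideal.IsPrime.mem_of_pow_mem ‹𝔭.IsPrime› k h)
  have h4 : s ^ k * c ∈ J ^ k * 𝔭 ^ k := Ideal.mul_mem_mul (Ideal.pow_mem_pow hsJ k) hc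
  have h5 : J ^ k * 𝔭 ^ k = Ideal.span {π ^ k} := by
    rw [← mul_pow, mul_comm J 𝔭, ← hJ, Ideal.span_singleton_pow]
  rw [h5] at h4
  obtain ⟨d, hd⟩ := Ideal.mem_span_singleton'.1 h4
  refine ⟨s ^ k, hs', d, by rw [← hd, mul_comm], fun hc' hd𝔭 => hc' ?_⟩
  have h6 : s ^ k * c ∈ 𝔭 ^ (k + 1) := by
    rw [← hd, pow_succ', ]
    exact Ideal.mul_mem_mul hd𝔭 (Ideal.pow_mem_pow h1 k)
  rcases Ideal.IsPrime.mul_mem_pow 𝔭 h6 with h | h
  · exact absurd h hs'
  · exact h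

section

variable {O R : Type} [CommRing O] [IsDedekindDomain O] [CommRing R] [IsDomain R]
  [IsDiscreteValuationRing R] [Algebra O R] (𝔭 : Ideal O) [𝔭.IsPrime] [IsLocalization.AtPrime R 𝔭]

theorem isUnit_map {s : O} (hs : s ∉ 𝔭) : IsUnit (algebraMap O R s) :=
  IsLocalization.map_units R (⟨s, hs⟩ : 𝔭.primeCompl)

theorem irreducible_map (π : O) (h1 : π ∈ 𝔭) (h2 : π ∉ 𝔭 ^ 2) : Irreducible (algebraMap O R π) := by
  rw [IsDiscreteValuationRing.irreducible_iff_uniformizer]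
  apply le_antisymm
  · intro r hr
    obtain ⟨o, s, rfl⟩ := IsLocalization.exists_mk'_eq 𝔭.primeCompl r
    have ho : o ∈ 𝔭 := by
      by_contra ho
      rw [IsLocalRing.mem_maximalIdeal, mem_nonunits_iff] at hr
      exact hr ((IsLocalization.AtPrime.isUnit_mk'_iff R 𝔭 o s).2 ho)
    obtain ⟨t, ht, d, htd, _⟩ := exists_div_pow 𝔭 π h1 h2 1 o (by rwa [pow_one])
    rw [pow_one] at htd
    have hu := isUnit_map (R := R) 𝔭 ht
    obtain ⟨v, hv⟩ := hu.exists_left_inv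
    rw [Ideal.mem_span_singleton']
    refine ⟨v * IsLocalization.mk' R d s, ?_⟩
    have h3 : algebraMap O R t * IsLocalization.mk' R o s =
        IsLocalization.mk' R d s * algebraMap O R π := by
      rw [IsLocalization.mul_mk'_eq_mk'_of_mul, htd, mul_comm π d, mul_comm _ (algebraMap O R π),
        IsLocalization.mul_mk'_eq_mk'_of_mul, mul_comm d π]
    calc v * IsLocalization.mk' R d s * algebraMap O R π
        = v * (IsLocalization.mk' R d s * algebraMap O R π) := by ring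
      _ = v * (algebraMap O R t * IsLocalization.mk' R o s) := by rw [h3]
      _ = (v * algebraMap O R t) * IsLocalization.mk' R o s := by ring
      _ = IsLocalization.mk' R o s := by rw [hv, one_mul]
  · rw [Ideal.span_singleton_le_iff_mem, IsLocalRing.mem_maximalIdeal, mem_nonunits_iff,
      IsLocalization.AtPrime.isUnit_to_map_iff R 𝔭 π]
    exact fun h => h h1

theorem map_hC {σ : Type} (n : ℕ) (p : MvPolynomial σ O) :
    map (algebraMap O R) (homogeneousComponent n p) =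
      homogeneousComponent n (map (algebraMap O R) p) := by
  ext m
  rw [coeff_map, coeff_homogeneousComponent, coeff_homogeneousComponent, coeff_map]
  split_ifs
  · rfl
  · exact map_zero _

theorem exists_of_mem_pow (π : O) (h1 : π ∈ 𝔭) (h2 : π ∉ 𝔭 ^ 2) (k : ℕ) (c : O) (hc : c ∈ 𝔭 ^ k) :
    ∃ b : R, algebraMap O R c = algebraMap O R π ^ k * b ∧ (c ∉ 𝔭 ^ (k + 1) → IsUnit b) := by
  obtain ⟨s, hs, d, hsd, hd⟩ := exists_div_pow 𝔭 π h1 h2 k c hc
  have hu := isUnit_map (R := R) 𝔭 hs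
  obtain ⟨v, hv⟩ := hu.exists_left_inv
  refine ⟨v * algebraMap O R d, ?_, fun h => ?_⟩
  · calc algebraMap O R c = (v * algebraMap O R s) * algebraMap O R c := by rw [hv, one_mul]
      _ = v * algebraMap O R (s * c) := by rw [map_mul]; ring
      _ = v * algebraMap O R (π ^ k * d) := by rw [hsd]
      _ = algebraMap O R π ^ k * (v * algebraMap O R d) := by rw [map_mul, map_pow]; ring
  · exact (IsUnit.of_mul_eq_one _ hv).mul (isUnit_map (R := R) 𝔭 (hd h))

/-- The local equation has a double point. -/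
theorem nodeR_map {σ : Type} (π : O) (h1 : π ∈ 𝔭) (h2 : π ∉ 𝔭 ^ 2) (k : ℕ) (g : MvPolynomial σ O)
    (h2p : (2 : O) ∉ 𝔭) (hk : 2 ≤ k) (hc : constantCoeff g ∈ 𝔭 ^ k)
    (hc' : constantCoeff g ∉ 𝔭 ^ (k + 1)) (hl : ∀ l, coeff (Finsupp.single l 1) g ∈ 𝔭 ^ k)
    (hq : ∀ l, ∃ δ : O, δ ∉ 𝔭 ∧ C δ * X l ∈
      Ideal.span (Set.range fun j => pderiv j (homogeneousComponent 2 g))) :
    NodeR (algebraMap O R π) k (map (algebraMap O R) g) := by
  refine ⟨?_, hk, ?_, ?_, ?_⟩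
  · have h := isUnit_map (R := R) 𝔭 h2p
    rwa [map_ofNat] at h
  · obtain ⟨b, hb, hbu⟩ := exists_of_mem_pow (R := R) 𝔭 π h1 h2 k _ hc
    exact ⟨b, hbu hc', by rw [constantCoeff_map, hb]⟩
  · intro l
    obtain ⟨b, hb, _⟩ := exists_of_mem_pow (R := R) 𝔭 π h1 h2 k _ (hl l)
    exact ⟨b, by rw [coeff_map, hb]⟩
  · intro l
    obtain ⟨δ, hδ, hδl⟩ := hq l
    have hu := isUnit_map (R := R) 𝔭 hδ
    obtain ⟨v, hv⟩ := hu.exists_left_inv
    have h3 : map (algebraMap O R) (C δ * X l) ∈ Ideal.span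
        (Set.range fun j => pderiv j (homogeneousComponent 2 (map (algebraMap O R) g))) := by
      have h4 := Ideal.mem_map_of_mem (map (algebraMap O R)) hδl
      rw [Ideal.map_span] at h4
      refine Ideal.span_mono ?_ h4
      rintro _ ⟨_, ⟨j, rfl⟩, rfl⟩
      refine ⟨j, ?_⟩
      simp only
      rw [← map_hC, pderiv_map]
    rw [map_mul, map_C, map_X] at h3
    have h5 := Ideal.mul_mem_left _ (C v) h3
    rwa [← mul_assoc, ← C_mul, hv, C_1, one_mul] at h5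

end

end Pool.Agent.U41.OD
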