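import Pool.Agent.U41.OD.Stm
import Pool.Agent.TH214.RM.Glob
import Pool.Agent.U454.OD.LM0

/-!
# Project OD (helper41), package LM: from the discrete valuation ring to the local module at a prime
-/

set_option autoImplicit false
set_option linter.unusedSectionVars false
set_option linter.unusedVariables false

open scoped Pointwise

namespace Pool.Agent.U41.OD

open Pool.Agent.H918R2.Quad Pool.Agent.H945R2.E Pool.Agent.W418 Pool.Agent.TH214.RM MvPolynomial

section gens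

variable {O F ι : Type} [CommRing O] [Field F] [Algebra O F]

theorem cen_sub (π : O) (x : ι → F) (o : ι) (i : ℕ) :
    ∀ y ∈ cen π x o i, y ∈ Submodule.span O (Set.range x) := by
  intro y hy
  unfold cen at hy
  rcases hy with rfl | ⟨j, _, rfl⟩
  · rw [← map_pow, ← Algebra.smul_def]
    exact Submodule.smul_mem _ _ (Submodule.subset_span ⟨o, rfl⟩)
  · exact Submodule.subset_span ⟨j, rfl⟩

theorem prod_cen_sub (π : O) (x : ι → F) (o : ι) (J : ℕ) :
    ∀ y ∈ ∏ i ∈ Finset.range J, cen π x o (i + 1), y ∈ Submodule.span O (Set.range x) ^ J := by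
  induction J with
  | zero =>
    intro y hy
    rw [Finset.prod_range_zero, Set.mem_one] at hy
    rw [hy, pow_zero]
    exact Submodule.one_le.1 le_rfl
  | succ J ih =>
    intro y hy
    rw [Finset.prod_range_succ] at hy
    obtain ⟨a, ha, b, hb, rfl⟩ := Set.mem_mul.1 hy
    rw [pow_succ]
    exact Submodule.mul_mem_mul (ih a ha) (cen_sub π x o (J + 1) b hb)

theorem gd_sub (π : O) (x : ι → F) (o : ι) (J D : ℕ) (hJD : J ≤ D) :
    ∀ y ∈ GD π x o J D, y ∈ Submodule.span O (Set.range x ^ D) := by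
  intro y hy
  obtain ⟨a, ha, b, hb, rfl⟩ := Set.mem_mul.1 hy
  have h1 : a ∈ Submodule.span O (Set.range x) ^ (D - J) := by
    rw [Submodule.span_pow]
    exact Submodule.subset_span ha
  have h2 := Submodule.mul_mem_mul h1 (prod_cen_sub π x o J b hb)
  rw [← pow_add, Nat.sub_add_cancel hJD, Submodule.span_pow] at h2
  exact h2

theorem smul_cen (π : O) (x : ι → F) (o : ι) (i : ℕ) :
    ∀ y ∈ Submodule.span O (Set.range x), π ^ i • y ∈ Submodule.span O (cen π x o i) := by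
  intro y hy
  induction hy using Submodule.span_induction with
  | mem y hy =>
    obtain ⟨l, rfl⟩ := hy
    by_cases hl : l = o
    · subst hl
      apply Submodule.subset_span
      left
      rw [Algebra.smul_def, map_pow]
    · apply Submodule.smul_mem
      apply Submodule.subset_span
      right
      exact ⟨l, hl, rfl⟩
  | zero => rw [smul_zero]; exact Submodule.zero_mem _
  | add a b _ _ ha hb => rw [smul_add]; exact Submodule.add_mem _ ha hb
  | smul r a _ ha => rw [smul_comm]; exact Submodule.smul_mem _ _ ha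

theorem smul_prod_cen (π : O) (x : ι → F) (o : ι) (J : ℕ) :
    ∀ y ∈ Submodule.span O (Set.range x) ^ J, (∏ i ∈ Finset.range J, π ^ (i + 1)) • y ∈
      Submodule.span O (∏ i ∈ Finset.range J, cen π x o (i + 1)) := by
  induction J with
  | zero =>
    intro y hy
    rw [Finset.prod_range_zero, Finset.prod_range_zero, one_smul]
    rw [pow_zero] at hy
    rw [← Submodule.one_eq_span_one_set]
    exact hy
  | succ J ih =>
    intro y hy
    rw [pow_succ] at hy
    rw [Finset.prod_range_succ, Finset.prod_range_succ, ← Submodule.span_mul_span]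
    refine Submodule.mul_induction_on hy (fun a ha b hb => ?_) (fun a b ha hb => ?_)
    · have h1 : ((∏ i ∈ Finset.range J, π ^ (i + 1)) * π ^ (J + 1)) • (a * b) =
          ((∏ i ∈ Finset.range J, π ^ (i + 1)) • a) * (π ^ (J + 1) • b) := by
        rw [smul_mul_smul_comm]
      rw [h1]
      exact Submodule.mul_mem_mul (ih a ha) (smul_cen π x o (J + 1) b hb)
    · rw [smul_add]
      exact Submodule.add_mem _ ha hb

theorem smul_gd (π : O) (x : ι → F) (o : ι) (J D : ℕ) (hJD : J ≤ D) :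
    ∀ y ∈ Submodule.span O (Set.range x ^ D), (∏ i ∈ Finset.range J, π ^ (i + 1)) • y ∈
      Submodule.span O (GD π x o J D) := by
  intro y hy
  have h0 : Submodule.span O (Set.range x ^ D) =
      Submodule.span O (Set.range x ^ (D - J)) * Submodule.span O (Set.range x) ^ J := by
    rw [← Submodule.span_pow, ← Submodule.span_pow, ← pow_add, Nat.sub_add_cancel hJD]
  rw [h0] at hy
  unfold GD
  rw [← Submodule.span_mul_span]
  refine Submodule.mul_induction_on hy (fun a ha b hb => ?_) (fun a b ha hb => ?_)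
  · rw [← mul_smul_comm]
    exact Submodule.mul_mem_mul ha (smul_prod_cen π x o J b hb)
  · rw [smul_add]
    exact Submodule.add_mem _ ha hb

theorem gd_map {R : Type} [CommRing R] [Algebra O R] [Algebra R F] [IsScalarTower O R F] (π : O)
    (x : ι → F) (o : ι) (J D : ℕ) : GD (algebraMap O R π) x o J D = GD π x o J D := by
  unfold GD cen
  rw [← IsScalarTower.algebraMap_apply O R F]

end gens

/-- The condition outside the double point over the localization. -/
theorem off_loc {O R ι : Type} [CommRing O] [CommRing R] [Algebra O R] [DecidableEq ι]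
    (𝔭 : Ideal O) [𝔭.IsPrime] [IsLocalization.AtPrime R 𝔭]
    (hinj : Function.Injective (algebraMap O R)) (G : MvPolynomial ι O) (s : ι)
    (h : ∀ Q : Ideal (MvPolynomial {j : ι // j ≠ s} O), Q.IsPrime →
      (∀ r : O, C r ∈ Q ↔ r ∈ 𝔭) → deh s G ∈ Q → (∃ j, pderiv j (deh s G) ∉ Q) ∨
        ∀ h, h ∉ Q → h * deh s G ∉ Q ^ 2)
    (Q : Ideal (MvPolynomial {j : ι // j ≠ s} R)) (hQ : Q.IsPrime)
    (hG : deh s (map (algebraMap O R) G) ∈ Q) (hCQ : ∀ r : R, C r ∈ Q ↔ ¬ IsUnit r) :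
    (∃ j, pderiv j (deh s (map (algebraMap O R) G)) ∉ Q) ∨
      ∀ h, h ∉ Q → h * deh s (map (algebraMap O R) G) ∉ Q ^ 2 := by
  set φ : MvPolynomial {j : ι // j ≠ s} O →+* MvPolynomial {j : ι // j ≠ s} R :=
    map (algebraMap O R) with hφ
  have hφi : Function.Injective φ := map_injective _ hinj
  have hp : (Q.comap φ).IsPrime := Ideal.comap_isPrime _ _
  have hC : ∀ r : O, C r ∈ Q.comap φ ↔ r ∈ 𝔭 := by
    intro r
    rw [Ideal.mem_comap, hφ, map_C, hCQ, IsLocalization.AtPrime.isUnit_to_map_iff R 𝔭 r]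
    simp
  have hs : ∀ r : O, r ∈ 𝔭.primeCompl → (C (algebraMap O R r) : MvPolynomial _ R) ∉ Q := by
    intro r hr h1
    rw [hCQ] at h1
    exact h1 (IsLocalization.map_units R (⟨r, hr⟩ : 𝔭.primeCompl))
  have hdeh : φ (deh s G) = deh s (map (algebraMap O R) G) := map_deh _ _ _
  have hE : deh s G ∈ Q.comap φ := by
    rw [Ideal.mem_comap, hdeh]
    exact hG
  rcases h (Q.comap φ) hp hC hE with ⟨j, hj⟩ | h1
  · left
    refine ⟨j, fun h2 => hj ?_⟩
    rw [Ideal.mem_comap, hφ, ← pderiv_map, ← hφ, hdeh]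
    exact h2
  · right
    intro f hf hfQ
    obtain ⟨a, ha, y, hy⟩ := clear_poly 𝔭.primeCompl f
    obtain ⟨b, hb, z, hzQ, hz⟩ := clear_sq 𝔭.primeCompl Q _ hfQ
    have hyQ : y ∉ Q.comap φ := by
      rw [Ideal.mem_comap, hφ, hy]
      intro h2
      exact (hQ.mem_or_mem h2).elim (hs a ha) hf
    have hbQ : C b ∉ Q.comap φ := by
      rw [hC]
      exact hb
    have h3 : C b * y ∉ Q.comap φ := fun h4 => (hp.mem_or_mem h4).elim hbQ hyQ
    apply h1 _ h3
    have h5 : C b * y * deh s G = C a * z := by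
      apply hφi
      have hy' : φ y = C (algebraMap O R a) * f := hy
      have hz' : φ z = C (algebraMap O R b) * (f * deh s (map (algebraMap O R) G)) := hz
      have hCa : φ (C a) = C (algebraMap O R a) := map_C _ _
      have hCb : φ (C b) = C (algebraMap O R b) := map_C _ _
      rw [map_mul, map_mul, map_mul, hdeh, hy', hz', hCa, hCb]
      ring
    rw [h5]
    exact Ideal.mul_mem_left _ _ hzQ

section

variable {O K F : Type} [CommRing O] [IsDedekindDomain O] [Field K] [Algebra O K]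
  [IsFractionRing O K] [Field F] [Algebra K F] [Algebra O F] [IsScalarTower O K F]

include K in
theorem regAt_node (hL : S_L) (𝔭 : Ideal O) [𝔭.IsPrime] (h0 : 𝔭 ≠ ⊥) {n : ℕ}
    (G : MvPolynomial (Fin (n + 2)) O) (d : ℕ) (hGd : G.IsHomogeneous d)
    (x : Fin (n + 2) → F) (hx0 : x 0 = 1)
    (hgen : IntermediateField.adjoin K (Set.range x) = ⊤)
    (b : Fin n → F) (htb : IsTranscendenceBasis K b)
    (x' : Fin (n + 2) → F) (u : Fin (n + 2) → Fin (n + 2) → K)
    (hu : ∀ i, x i = ∑ j, algebraMap K F (u i j) * x' j) (hrel : aeval x' G = 0) (hx'0 : x' 0 ≠ 0)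
    (π : O) (hπ1 : π ∈ 𝔭) (hπ2 : π ∉ 𝔭 ^ 2) (k : ℕ)
    (h2p : (2 : O) ∉ 𝔭) (hk : 2 ≤ k) (hc : constantCoeff (deh 0 G) ∈ 𝔭 ^ k)
    (hc' : constantCoeff (deh 0 G) ∉ 𝔭 ^ (k + 1))
    (hl : ∀ l, coeff (Finsupp.single l 1) (deh 0 G) ∈ 𝔭 ^ k)
    (hq : ∀ l, ∃ δ : O, δ ∉ 𝔭 ∧ C δ * X l ∈
      Ideal.span (Set.range fun j => pderiv j (homogeneousComponent 2 (deh 0 G))))
    (hoff : ∀ s, s ≠ 0 → ∀ Q : Ideal (MvPolynomial {j : Fin (n + 2) // j ≠ s} O), Q.IsPrime →
      (∀ r : O, C r ∈ Q ↔ r ∈ 𝔭) → deh s G ∈ Q → (∃ j, pderiv j (deh s G) ∉ Q) ∨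
        ∀ h, h ∉ Q → h * deh s G ∉ Q ^ 2)
    (D : ℕ) (hD : k / 2 + 1 ≤ D) (M : Submodule O F)
    (hM1 : ∀ y ∈ M, ∃ s, s ∉ 𝔭 ∧ s • y ∈ Submodule.span O (GD π x' 0 (k / 2) D))
    (hM2 : ∀ y ∈ Submodule.span O (GD π x' 0 (k / 2) D), ∃ s, s ∉ 𝔭 ∧ s • y ∈ M) :
    RegAt 𝔭 M := by
  intro f hfM hf q hqp hq'
  let R := Localization.subalgebra.ofField K 𝔭.primeCompl 𝔭.primeCompl_le_nonZeroDivisors
  have : IsLocalization.AtPrime R 𝔭 := Localization.subalgebra.isLocalization_ofField K _ _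
  have : IsFractionRing R K := Localization.subalgebra.isFractionRing_ofField K _ _
  have : IsDedekindDomain R := IsLocalization.isDedekindDomain O
    𝔭.primeCompl_le_nonZeroDivisors R
  have : IsDiscreteValuationRing R :=
    IsLocalization.AtPrime.isDiscreteValuationRing_of_dedekind_domain O h0 R
  have : IsScalarTower O R F := IsScalarTower.of_algebraMap_eq fun r => by
    rw [IsScalarTower.algebraMap_apply O K F]; rfl
  have : IsScalarTower R K F := IsScalarTower.of_algebraMap_eq fun r => rfl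
  have hGD : GD (algebraMap O R π) x' 0 (k / 2) D = GD π x' 0 (k / 2) D := gd_map π x' 0 (k / 2) D
  have hMG : ∀ y ∈ M, y ∈ Submodule.span R (GD (algebraMap O R π) x' 0 (k / 2) D) := by
    intro y hy
    rw [hGD]
    obtain ⟨s, hs, hsy⟩ := hM1 y hy
    have h3 := Submodule.span_subset_span O R _ hsy
    obtain ⟨v, hv⟩ := (isUnit_map (R := R) 𝔭 hs).exists_left_inv
    have h4 := Submodule.smul_mem _ v h3
    have h5 : v • (s • y) = y := by
      rw [← IsScalarTower.algebraMap_smul R s y, smul_smul, hv, one_smul]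
    rwa [h5] at h4
  have hGM : ∀ y ∈ Submodule.span R (GD (algebraMap O R π) x' 0 (k / 2) D),
      ∃ s, s ∉ 𝔭 ∧ s • y ∈ M := by
    intro y hy
    rw [hGD] at hy
    obtain ⟨s, hs, hsy⟩ := clear_denom 𝔭 (GD π x' 0 (k / 2) D) y hy
    obtain ⟨t, ht, hty⟩ := hM2 _ hsy
    refine ⟨t * s, fun h => (Ideal.IsPrime.mem_or_mem ‹𝔭.IsPrime› h).elim ht hs, ?_⟩
    rw [mul_smul]
    exact hty
  obtain ⟨𝒪, hloc, hR, hRU, hloc2, hG, hreg⟩ :=
    transfer (R := R) 𝔭 M (GD (algebraMap O R π) x' 0 (k / 2) D) hMG hGM f q hq'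
  apply hreg
  have hinjOR : Function.Injective (algebraMap O R) :=
    IsLocalization.injective R 𝔭.primeCompl_le_nonZeroDivisors
  have hinj : Function.Injective (algebraMap R K) := IsFractionRing.injective R K
  have hinjF : Function.Injective (algebraMap R F) := by
    rw [IsScalarTower.algebraMap_eq R K F]
    exact (algebraMap K F).injective.comp hinj
  have hrel' : aeval x' (map (algebraMap O R) G) = 0 := by
    rw [aeval_map_algebraMap, hrel]
  have hind : ∀ s, x' s ≠ 0 → ∃ j₀ : {i : Fin (n + 2) // i ≠ s},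
      AlgebraicIndependent R
        (fun i : {i : {i : Fin (n + 2) // i ≠ s} // i ≠ j₀} => x' i / x' s) := by
    intro s hs
    obtain ⟨j₀, hj₀⟩ := hind_of (K := K) (ι := Fin (n + 2)) (by simp) x hx0 hgen b htb x' u hu s hs
    exact ⟨j₀, hj₀.restrictScalars hinj⟩
  have hnode : NodeR (algebraMap O R π) k (deh 0 (map (algebraMap O R) G)) := by
    rw [← map_deh]
    exact nodeR_map (R := R) 𝔭 π hπ1 hπ2 k (deh 0 G) h2p hk hc hc' hl hq
  exact hL (algebraMap O R π) k (map (algebraMap O R) G) d x' 𝒪 f D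
    (irreducible_map (R := R) 𝔭 π hπ1 hπ2) (hGd.map _) hnode
    (fun s hs Q hQ hGQ hC => off_loc 𝔭 hinjOR G s (hoff s hs) Q hQ hGQ hC) hrel' hind hinjF hx'0
    hloc hR hRU hD hf (hMG f hfM) hG hloc2

include K in
theorem locMod_node (hL : S_L) (𝔭 : Ideal O) [𝔭.IsPrime] (h0 : 𝔭 ≠ ⊥) {n : ℕ}
    (G : MvPolynomial (Fin (n + 2)) O) (d : ℕ) (hGd : G.IsHomogeneous d) (hN : Node 𝔭 G)
    (x : Fin (n + 2) → F) (hx0 : x 0 = 1)
    (hgen : IntermediateField.adjoin K (Set.range x) = ⊤)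
    (b : Fin n → F) (htb : IsTranscendenceBasis K b)
    (x' : Fin (n + 2) → F) (u : Fin (n + 2) → Fin (n + 2) → K)
    (hu : ∀ i, x i = ∑ j, algebraMap K F (u i j) * x' j) (hrel : aeval x' G = 0) (hx'0 : x' 0 ≠ 0) :
    LocMod 𝔭 x' := by
  have h1𝔭 : (1 : O) ∉ 𝔭 := (Ideal.ne_top_iff_one 𝔭).1 Ideal.IsPrime.ne_top'
  have hmul : ∀ s t : O, s ∉ 𝔭 → t ∉ 𝔭 → s * t ∉ 𝔭 := fun s t hs ht h =>
    (Ideal.IsPrime.mem_or_mem ‹𝔭.IsPrime› h).elim hs ht
  obtain ⟨k, hk, hc, hc', hl⟩ := hN.vals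
  obtain ⟨π, hπ1, hπ2⟩ := Ideal.exists_mem_pow_notMem_pow_succ 𝔭 h0 Ideal.IsPrime.ne_top' 1
  rw [pow_one] at hπ1
  have hπ0 : π ≠ 0 := by
    rintro rfl
    exact hπ2 (Ideal.zero_mem _)
  refine ⟨k / 2 + 1, fun D hD => ?_⟩
  have hJD : k / 2 ≤ D := by omega
  set N := Submodule.span O (Set.range x' ^ D) with hNdef
  set S := Submodule.span O (GD π x' 0 (k / 2) D) with hS
  have hSN : S ≤ N := Submodule.span_le.2 fun y hy => gd_sub π x' 0 (k / 2) D hJD y hy
  let P : Submodule O F :=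
    { carrier := {y | y ∈ N ∧ ∃ s : O, s ∉ 𝔭 ∧ s • y ∈ S}
      zero_mem' := ⟨N.zero_mem, 1, h1𝔭, by rw [smul_zero]; exact S.zero_mem⟩
      add_mem' := by
        rintro y z ⟨hy, s, hs, hsy⟩ ⟨hz, t, ht, htz⟩
        refine ⟨N.add_mem hy hz, s * t, hmul s t hs ht, ?_⟩
        rw [smul_add]
        refine S.add_mem ?_ ?_
        · rw [mul_comm, mul_smul]
          exact S.smul_mem _ hsy
        · rw [mul_smul]
          exact S.smul_mem _ htz
      smul_mem' := by
        rintro r y ⟨hy, s, hs, hsy⟩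
        refine ⟨N.smul_mem r hy, s, hs, ?_⟩
        rw [smul_comm]
        exact S.smul_mem _ hsy }
  have hPmem : ∀ y, y ∈ P ↔ y ∈ N ∧ ∃ s : O, s ∉ 𝔭 ∧ s • y ∈ S := fun y => Iff.rfl
  refine ⟨P, ?_, ?_, ?_⟩
  · intro y hy
    exact ⟨1, h1𝔭, by rw [one_smul]; exact hy.1⟩
  · set c₀ : O := ∏ i ∈ Finset.range (k / 2), π ^ (i + 1) with hc₀
    have hc₀0 : c₀ ≠ 0 := by
      rw [hc₀]
      exact Finset.prod_ne_zero_iff.2 fun i _ => pow_ne_zero _ hπ0
    obtain ⟨k₁, hk₁⟩ := exists_pow_dvd 𝔭 h0 c₀ hc₀0 0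
    refine ⟨k₁, fun c hc y hy => ?_⟩
    obtain ⟨s, hs, e, _, hse⟩ := hk₁ c hc
    refine ⟨N.smul_mem _ hy, s, hs, ?_⟩
    rw [smul_smul, hse, mul_comm, mul_smul]
    exact S.smul_mem _ (smul_gd π x' 0 (k / 2) D hJD y hy)
  · intro M hMP hPM
    refine regAt_node (K := K) hL 𝔭 h0 G d hGd x hx0 hgen b htb x' u hu hrel hx'0 π hπ1 hπ2 k
      hN.two hk hc hc' hl hN.quad hN.off D hD M ?_ ?_
    · intro y hy
      exact ((hPmem y).1 (hMP hy)).2
    · intro y hy
      exact hPM y ⟨hSN hy, 1, h1𝔭, by rw [one_smul]; exact hy⟩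

end

theorem LM_ok (hL : S_L) : S_LM := by
  intro O K F _ _ _ _ _ _ _ _ _ 𝔭 _ h0 n G hG0 d hGd hN x hx0 hgen b htb x' u u' hu hu' hrel hx'0
  refine locMod_lin (K := K) 𝔭 h0 x x' ?_ ?_ ?_
  · intro i
    rw [hu']
    refine Submodule.sum_mem _ fun j _ => ?_
    rw [← Algebra.smul_def]
    exact Submodule.smul_mem _ _ (Submodule.subset_span ⟨j, rfl⟩)
  · intro i
    rw [hu]
    refine Submodule.sum_mem _ fun j _ => ?_
    rw [← Algebra.smul_def]
    exact Submodule.smul_mem _ _ (Submodule.subset_span ⟨j, rfl⟩)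
  · exact locMod_node (K := K) hL 𝔭 h0 G d hGd hN x hx0 hgen b htb x' u hu hrel hx'0

end Pool.Agent.U41.OD
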